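import Mathlib

set_option autoImplicit false

set_option linter.unusedSectionVars false

open Finset

namespace Pool.Agent.H55.PR

variable {V : Type} [Fintype V] [DecidableEq V]

/-- Two labellings `t, t'` of the vertices of `G` by palettes (`inl`) or single colours (`inr`)
clash if some edge carries equal labels, or some vertex carries the same single colour. -/
def Clash (G : SimpleGraph V) (K s : ℕ) (t t' : V → (Fin K × Bool) ⊕ Fin s) : Prop :=
  (∃ v w, G.Adj v w ∧ t v = t' w) ∨ (∃ v b, t v = Sum.inr b ∧ t' v = Sum.inr b)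

/-- The (relevant part of the) exponential graph. -/
def EG (G : SimpleGraph V) (K s : ℕ) : SimpleGraph (V → (Fin K × Bool) ⊕ Fin s) where
  Adj t t' := t ≠ t' ∧ ¬ Clash G K s t t'
  symm := ⟨by
    rintro t t' ⟨h1, h2⟩
    refine ⟨h1.symm, ?_⟩
    rintro (⟨v, w, hvw, h⟩ | ⟨v, b, h, h'⟩)
    · exact h2 (Or.inl ⟨w, v, hvw.symm, h.symm⟩)
    · exact h2 (Or.inr ⟨v, b, h', h⟩)⟩
  loopless := ⟨fun t h => h.1 rfl⟩

/-- Counting in a product set: fixing two coordinates. -/
lemma count_two {s : ℕ} (L : V → Finset (Fin s)) (u w : V) (huw : u ≠ w) (b b' : Fin s) :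
    ((Fintype.piFinset L).filter (fun g => g u = b ∧ g w = b')).card * ((L u).card * (L w).card)
      ≤ (Fintype.piFinset L).card := by
  classical
  rw [← Finset.card_product, ← Finset.card_product]
  apply Finset.card_le_card_of_injOn
    (fun z : (V → Fin s) × (Fin s × Fin s) => Function.update (Function.update z.1 u z.2.1) w z.2.2)
  · rintro ⟨g, x, y⟩ hz
    simp only [Finset.coe_product, Set.mem_prod, Finset.mem_coe, Finset.mem_filter,
      Fintype.mem_piFinset] at hz ⊢
    obtain ⟨⟨hg, -⟩, hx, hy⟩ := hz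
    intro v
    by_cases hvw : v = w
    · subst hvw; simpa using hy
    · rw [Function.update_of_ne hvw]
      by_cases hvu : v = u
      · subst hvu; simpa using hx
      · rw [Function.update_of_ne hvu]; exact hg v
  · rintro ⟨g, x, y⟩ hz ⟨g', x', y'⟩ hz' heq
    simp only [Finset.coe_product, Set.mem_prod, Finset.mem_coe, Finset.mem_filter,
      Fintype.mem_piFinset] at hz hz'
    obtain ⟨⟨-, hgu, hgw⟩, -, -⟩ := hz
    obtain ⟨⟨-, hgu', hgw'⟩, -, -⟩ := hz'
    simp only at heq
    have hy : y = y' := by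
      have := congrFun heq w
      simpa using this
    have hx : x = x' := by
      have := congrFun heq u
      rw [Function.update_of_ne huw, Function.update_of_ne huw] at this
      simpa using this
    have hg : g = g' := by
      funext v
      by_cases hvw : v = w
      · subst hvw; rw [hgw, hgw']
      · by_cases hvu : v = u
        · subst hvu; rw [hgu, hgu']
        · have := congrFun heq v
          rw [Function.update_of_ne hvw, Function.update_of_ne hvw, Function.update_of_ne hvu,
            Function.update_of_ne hvu] at this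
          exact this
    rw [hx, hy, hg]

/-- The admissible labellings at stage `k`. -/
def Adm (K s k : ℕ) (W : Finset V) (κ : V → Fin K × Bool) (t : V → (Fin K × Bool) ⊕ Fin s) : Prop :=
  (∀ v ∈ W, t v = Sum.inl (κ v)) ∧ (∀ v, v ∉ W → ∀ a, t v = Sum.inl a → k ≤ a.1.val)

/-- The labelling attached to a function `g`. -/
def lab {K s : ℕ} (W : Finset V) (κ : V → Fin K × Bool) (g : V → Fin s) :
    V → (Fin K × Bool) ⊕ Fin s :=
  fun v => if v ∈ W then Sum.inl (κ v) else Sum.inr (g v)

lemma lab_adm {K s : ℕ} (k : ℕ) (W : Finset V) (κ : V → Fin K × Bool) (g : V → Fin s) :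
    Adm K s k W κ (lab W κ g) := by
  constructor
  · intro v hv
    simp [lab, hv]
  · intro v hv a h
    simp [lab, hv] at h

/-- The property that every admissible labelling of colour `i` takes the value `b` on the star
of `u` (outside `W`). -/
def Pin {M : ℕ} (G : SimpleGraph V) (K s k : ℕ) (W : Finset V) (κ : V → Fin K × Bool)
    (Φ : (V → (Fin K × Bool) ⊕ Fin s) → Fin M) (i : Fin M) (u : V) (b : Fin s) : Prop :=
  ∀ t, Adm K s k W κ t → Φ t = i → ∃ w, w ∉ W ∧ (w = u ∨ G.Adj u w) ∧ t w = Sum.inr b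

/-- Clash between an admissible labelling and the labelling of `g`. -/
lemma clash_lab {G : SimpleGraph V} {K s k : ℕ} {W : Finset V} {κ : V → Fin K × Bool}
    (hκ : ∀ v ∈ W, (κ v).1.val < k) (hprop : ∀ v ∈ W, ∀ w ∈ W, G.Adj v w → κ v ≠ κ w)
    {g : V → Fin s} {t : V → (Fin K × Bool) ⊕ Fin s} (ht : Adm K s k W κ t)
    (h : Clash G K s (lab W κ g) t) :
    ∃ v w, v ∉ W ∧ w ∉ W ∧ (v = w ∨ G.Adj v w) ∧ t w = Sum.inr (g v) := by
  rcases h with ⟨v, w, hvw, h⟩ | ⟨v, b, h, h'⟩
  · by_cases hv : v ∈ W
    · simp only [lab, hv, if_true] at h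
      exfalso
      by_cases hw : w ∈ W
      · have := ht.1 w hw
        rw [this] at h
        exact hprop v hv w hw hvw (Sum.inl.inj h)
      · have h1 := ht.2 w hw _ h.symm
        have h2 := hκ v hv
        omega
    · simp only [lab, hv, if_false] at h
      refine ⟨v, w, hv, ?_, Or.inr hvw, h.symm⟩
      intro hw
      have := ht.1 w hw
      rw [this] at h
      cases h
  · by_cases hv : v ∈ W
    · simp [lab, hv] at h
    · simp only [lab, hv, if_false] at h
      refine ⟨v, v, hv, hv, Or.inl rfl, ?_⟩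
      rw [h', ← h]

/-- Pigeonhole. -/
lemma pigeon {α β : Type} (A : Finset α) (J : Finset β) (R : β → α → Prop)
    [∀ j, DecidablePred (R j)]
    (h : ∀ a ∈ A, ∃ j ∈ J, R j a) (hA : A.Nonempty) :
    ∃ j ∈ J, A.card ≤ J.card * (A.filter (R j)).card := by
  classical
  by_contra hcon
  push Not at hcon
  obtain ⟨a0, ha0⟩ := hA
  obtain ⟨j0, hj0, -⟩ := h a0 ha0
  have hJ : 0 < J.card := Finset.card_pos.mpr ⟨j0, hj0⟩
  have h1 : A.card ≤ ∑ j ∈ J, (A.filter (R j)).card := by
    have : A ⊆ J.biUnion (fun j => A.filter (R j)) := by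
      intro a ha
      obtain ⟨j, hj, hR⟩ := h a ha
      exact Finset.mem_biUnion.mpr ⟨j, hj, Finset.mem_filter.mpr ⟨ha, hR⟩⟩
    exact (Finset.card_le_card this).trans Finset.card_biUnion_le
  have h2 : ∑ j ∈ J, J.card * (A.filter (R j)).card < ∑ _j ∈ J, A.card :=
    Finset.sum_lt_sum_of_nonempty ⟨j0, hj0⟩ hcon
  rw [← Finset.mul_sum, Finset.sum_const, smul_eq_mul] at h2
  have h3 := Nat.mul_le_mul_left J.card h1
  omega

/-- Upper bound for a family in a star, all of whose members meet one of few conditions at a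
second coordinate. -/
lemma upper {s : ℕ} (L : V → Finset (Fin s)) (hL : ∀ v, s ≤ 2 * (L v).card)
    (F : Finset (V → Fin s)) (hF : F ⊆ Fintype.piFinset L) (u : V) (b : Fin s)
    (hFu : ∀ g ∈ F, g u = b) (J : Finset (V × V)) (c : V × V → Fin s)
    (h : ∀ g ∈ F, ∃ z ∈ J, z.1 ≠ u ∧ g z.1 = c z) :
    F.card * s ^ 2 ≤ 4 * J.card * (Fintype.piFinset L).card := by
  classical
  rcases F.eq_empty_or_nonempty with hE | hne
  · simp [hE]
  · obtain ⟨z, hz, hcard⟩ := pigeon F J (fun z g => z.1 ≠ u ∧ g z.1 = c z) h hne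
    have hpos : 0 < (F.filter (fun g => z.1 ≠ u ∧ g z.1 = c z)).card := by
      have h0 : 0 < F.card := Finset.card_pos.mpr hne
      by_contra hcon
      have : (F.filter (fun g => z.1 ≠ u ∧ g z.1 = c z)).card = 0 := by omega
      rw [this] at hcard
      omega
    obtain ⟨g0, hg0⟩ := Finset.card_pos.mp hpos
    have hzu : z.1 ≠ u := (Finset.mem_filter.mp hg0).2.1
    have hsub : F.filter (fun g => z.1 ≠ u ∧ g z.1 = c z) ⊆
        (Fintype.piFinset L).filter (fun g => g u = b ∧ g z.1 = c z) := by
      intro g hg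
      rw [Finset.mem_filter] at hg ⊢
      exact ⟨hF hg.1, hFu g hg.1, hg.2.2⟩
    have h1 := count_two L u z.1 (Ne.symm hzu) b (c z)
    have h2 := Finset.card_le_card hsub
    set A := (F.filter (fun g => z.1 ≠ u ∧ g z.1 = c z)).card with hA
    set B := ((Fintype.piFinset L).filter (fun g => g u = b ∧ g z.1 = c z)).card with hB
    set Q := (Fintype.piFinset L).card
    have h3 : s ^ 2 ≤ 4 * ((L u).card * (L z.1).card) := by
      have := Nat.mul_le_mul (hL u) (hL z.1)
      calc s ^ 2 = s * s := by ring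
        _ ≤ (2 * (L u).card) * (2 * (L z.1).card) := this
        _ = 4 * ((L u).card * (L z.1).card) := by ring
    calc F.card * s ^ 2 ≤ (J.card * A) * (4 * ((L u).card * (L z.1).card)) :=
          Nat.mul_le_mul hcard h3
      _ ≤ (J.card * B) * (4 * ((L u).card * (L z.1).card)) := by gcongr
      _ = 4 * J.card * (B * ((L u).card * (L z.1).card)) := by ring
      _ ≤ 4 * J.card * Q := by gcongr

end Pool.Agent.H55.PR
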