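import Pool.Agent.H55.PR.Stage

set_option autoImplicit false
set_option linter.unusedSectionVars false

open Finset

namespace Pool.Agent.H55.PR

/-- The directed relation on flags `(x, a, b)` of the affine plane over `ZMod p`:
the point is `(x, a x + b)`, the line is `y = a x + b`. -/
def FR (p : ℕ) (F F' : ZMod p × ZMod p × ZMod p) : Prop :=
  F.1.val < F'.1.val ∧ F.2.1 ≠ F'.2.1 ∧ F.2.1 * F'.1 + F.2.2 = F'.2.1 * F'.1 + F'.2.2

/-- The flag graph. -/
def FG (p : ℕ) : SimpleGraph (ZMod p × ZMod p × ZMod p) where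
  Adj F F' := FR p F F' ∨ FR p F' F
  symm := ⟨fun _ _ h => h.symm⟩
  loopless := ⟨by
    rintro F (⟨h, -⟩ | ⟨h, -⟩)
    · exact lt_irrefl _ h
    · exact lt_irrefl _ h⟩

lemma FG_no_transitive (p : ℕ) [Fact p.Prime] (F1 F2 F3 : ZMod p × ZMod p × ZMod p)
    (h12 : FR p F1 F2) (h23 : FR p F2 F3) (h13 : FR p F1 F3) : False := by
  obtain ⟨x1, a1, b1⟩ := F1
  obtain ⟨x2, a2, b2⟩ := F2
  obtain ⟨x3, a3, b3⟩ := F3
  obtain ⟨-, hne, e12⟩ := h12
  obtain ⟨hlt, -, e23⟩ := h23
  obtain ⟨-, -, e13⟩ := h13
  simp only at *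
  have h : (a1 - a2) * (x3 - x2) = 0 := by
    have e : a1 * x3 + b1 = a2 * x3 + b2 := e13.trans e23.symm
    linear_combination e - e12
  rcases mul_eq_zero.mp h with h | h
  · exact hne (sub_eq_zero.mp h)
  · rw [sub_eq_zero] at h
    rw [h] at hlt
    exact lt_irrefl _ hlt

lemma FG_tri (p : ℕ) [Fact p.Prime] (a b c : ZMod p × ZMod p × ZMod p)
    (hab : (FG p).Adj a b) (hac : (FG p).Adj a c) : ¬ (FG p).Adj b c := by
  intro hbc
  rcases hab with hab | hab <;> rcases hac with hac | hac <;> rcases hbc with hbc | hbc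
  · exact FG_no_transitive p a b c hab hbc hac
  · exact FG_no_transitive p a c b hac hbc hab
  · have h1 := hab.1; have h2 := hbc.1; have h3 := hac.1; omega
  · exact FG_no_transitive p c a b hac hab hbc
  · exact FG_no_transitive p b a c hab hac hbc
  · have h1 := hab.1; have h2 := hbc.1; have h3 := hac.1; omega
  · exact FG_no_transitive p b c a hbc hac hab
  · exact FG_no_transitive p c b a hbc hab hac

/-- Independent sets of the flag graph are small. -/
lemma FG_indep (p : ℕ) [Fact p.Prime] (I : Finset (ZMod p × ZMod p × ZMod p))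
    (hI : ∀ x ∈ I, ∀ y ∈ I, ¬ (FG p).Adj x y) : I.card ≤ 2 * p ^ 2 := by
  classical
  have hp : 0 < p := (Fact.out : p.Prime).pos
  have hz : NeZero p := ⟨hp.ne'⟩
  let T := (ZMod p × ZMod p) ⊕ (ZMod p × ZMod p)
  let φ : ZMod p × ZMod p × ZMod p → T := fun F =>
    if ∃ x0 : ZMod p, (x0, F.2.1, F.2.2) ∈ I ∧ x0.val < F.1.val then
      Sum.inr (F.1, F.2.1 * F.1 + F.2.2) else Sum.inl (F.2.1, F.2.2)
  have hcard : Fintype.card T = 2 * p ^ 2 := by
    simp only [T, Fintype.card_sum, Fintype.card_prod, ZMod.card]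
    ring
  rw [← hcard, ← Finset.card_univ]
  apply Finset.card_le_card_of_injOn φ (fun _ _ => Finset.mem_coe.mpr (Finset.mem_univ _))
  rintro ⟨x, a, b⟩ hF ⟨x', a', b'⟩ hF' heq
  rw [Finset.mem_coe] at hF hF'
  simp only [φ] at heq
  by_cases h1 : ∃ x0 : ZMod p, (x0, a, b) ∈ I ∧ x0.val < x.val
  · by_cases h2 : ∃ x0 : ZMod p, (x0, a', b') ∈ I ∧ x0.val < x'.val
    · rw [if_pos h1, if_pos h2] at heq
      have h3 := Sum.inr.inj heq
      have hx : x = x' := congrArg Prod.fst h3
      have hy : a * x + b = a' * x' + b' := congrArg Prod.snd h3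
      subst hx
      by_cases haa : a = a'
      · subst haa
        have : b = b' := by linear_combination hy
        rw [this]
      · exfalso
        obtain ⟨x0, hx0, hlt⟩ := h1
        exact hI _ hx0 _ hF' (Or.inl ⟨hlt, haa, hy⟩)
    · rw [if_pos h1, if_neg h2] at heq
      cases heq
  · by_cases h2 : ∃ x0 : ZMod p, (x0, a', b') ∈ I ∧ x0.val < x'.val
    · rw [if_neg h1, if_pos h2] at heq
      cases heq
    · rw [if_neg h1, if_neg h2] at heq
      have h3 := Sum.inl.inj heq
      have ha : a = a' := congrArg Prod.fst h3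
      have hb : b = b' := congrArg Prod.snd h3
      subst ha hb
      by_cases hxx : x = x'
      · rw [hxx]
      · exfalso
        have hv : x.val ≠ x'.val := fun h => hxx (ZMod.val_injective p h)
        rcases lt_or_gt_of_ne hv with h | h
        · exact h2 ⟨x, hF, h⟩
        · exact h1 ⟨x', hF', h⟩

/-- The number of ordered pairs of equal or adjacent flags. -/
lemma FG_prs (p : ℕ) [Fact p.Prime] [NeZero p] : (prs (FG p)).card ≤ 3 * p ^ 5 := by
  classical
  have hp : 0 < p := (Fact.out : p.Prime).pos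
  let T := (ZMod p × ZMod p × ZMod p) ⊕ (((ZMod p × ZMod p × ZMod p) × (ZMod p × ZMod p)) ⊕
    ((ZMod p × ZMod p × ZMod p) × (ZMod p × ZMod p)))
  let ψ : (ZMod p × ZMod p × ZMod p) × (ZMod p × ZMod p × ZMod p) → T := fun z =>
    if z.1 = z.2 then Sum.inl z.1 else
      if FR p z.1 z.2 then Sum.inr (Sum.inl (z.1, (z.2.1, z.2.2.1))) else
        Sum.inr (Sum.inr (z.2, (z.1.1, z.1.2.1)))
  have hcard : Fintype.card T = p ^ 3 + 2 * p ^ 5 := by
    simp only [T, Fintype.card_sum, Fintype.card_prod, ZMod.card]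
    ring
  have hdet : ∀ F G G' : ZMod p × ZMod p × ZMod p, FR p F G → FR p F G' → G.1 = G'.1 →
      G.2.1 = G'.2.1 → G = G' := by
    rintro ⟨x, a, b⟩ ⟨x1, a1, b1⟩ ⟨x2, a2, b2⟩ h1 h2 hx ha
    simp only at hx ha
    subst hx ha
    obtain ⟨-, -, e1⟩ := h1
    obtain ⟨-, -, e2⟩ := h2
    simp only at e1 e2
    have : b1 = b2 := by linear_combination e2 - e1
    rw [this]
  have h1 : (prs (FG p)).card ≤ Fintype.card T := by
    rw [← Finset.card_univ]
    apply Finset.card_le_card_of_injOn ψ (fun _ _ => Finset.mem_coe.mpr (Finset.mem_univ _))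
    rintro ⟨F, F'⟩ hz ⟨G, G'⟩ hz' heq
    rw [Finset.mem_coe, mem_prs] at hz hz'
    simp only [ψ] at heq
    by_cases hF : F = F'
    · by_cases hG : G = G'
      · rw [if_pos hF, if_pos hG] at heq
        have := Sum.inl.inj heq
        rw [← hF, ← hG, this]
      · rw [if_pos hF, if_neg hG] at heq
        split_ifs at heq
    · by_cases hG : G = G'
      · rw [if_neg hF, if_pos hG] at heq
        split_ifs at heq
      · rw [if_neg hF, if_neg hG] at heq
        have haF : (FG p).Adj F F' := hz.resolve_left hF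
        have haG : (FG p).Adj G G' := hz'.resolve_left hG
        by_cases h1 : FR p F F'
        · by_cases h2 : FR p G G'
          · rw [if_pos h1, if_pos h2] at heq
            have h3 := Sum.inl.inj (Sum.inr.inj heq)
            have e1 : F = G := congrArg Prod.fst h3
            have e2 : F'.1 = G'.1 := congrArg (fun t => t.2.1) h3
            have e3 : F'.2.1 = G'.2.1 := congrArg (fun t => t.2.2) h3
            subst e1
            rw [hdet F F' G' h1 h2 e2 e3]
          · rw [if_pos h1, if_neg h2] at heq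
            have h3 := Sum.inr.inj heq
            cases h3
        · by_cases h2 : FR p G G'
          · rw [if_neg h1, if_pos h2] at heq
            have h3 := Sum.inr.inj heq
            cases h3
          · rw [if_neg h1, if_neg h2] at heq
            have h3 := Sum.inr.inj (Sum.inr.inj heq)
            have e1 : F' = G' := congrArg Prod.fst h3
            have e2 : F.1 = G.1 := congrArg (fun t => t.2.1) h3
            have e3 : F.2.1 = G.2.1 := congrArg (fun t => t.2.2) h3
            have h1' : FR p F' F := haF.resolve_left h1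
            have h2' : FR p G' G := haG.resolve_left h2
            subst e1
            rw [hdet F' F G h1' h2' e2 e3]
  rw [hcard] at h1
  have h2 : p ^ 3 ≤ p ^ 5 := Nat.pow_le_pow_right hp (by norm_num)
  omega

/-- The strong product with a complete graph on `q` vertices. -/
def blow {V : Type} (G : SimpleGraph V) (q : ℕ) : SimpleGraph (V × Fin q) where
  Adj x y := x ≠ y ∧ (x.1 = y.1 ∨ G.Adj x.1 y.1)
  symm := ⟨by
    rintro x y ⟨h1, h2⟩
    refine ⟨h1.symm, ?_⟩
    rcases h2 with h | h
    · exact Or.inl h.symm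
    · exact Or.inr h.symm⟩
  loopless := ⟨fun _ h => h.1 rfl⟩

/-- Counting bound for colourings of the blow-up. -/
lemma blow_lower {V : Type} [Fintype V] [DecidableEq V] (G : SimpleGraph V) (q m α : ℕ)
    (hI : ∀ I : Finset V, (∀ x ∈ I, ∀ y ∈ I, ¬ G.Adj x y) → I.card ≤ α)
    (hcol : (blow G q).Colorable m) : Fintype.card V * q ≤ m * α := by
  classical
  obtain ⟨C⟩ := hcol
  have h1 : Fintype.card (V × Fin q) = ∑ i : Fin m,
      (Finset.univ.filter (fun x : V × Fin q => C x = i)).card := by
    rw [← Finset.card_univ]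
    exact Finset.card_eq_sum_card_fiberwise (fun x _ => Finset.mem_coe.mpr (Finset.mem_univ _))
  have h2 : ∀ i : Fin m, (Finset.univ.filter (fun x : V × Fin q => C x = i)).card ≤ α := by
    intro i
    have hinj : Set.InjOn Prod.fst
        ((Finset.univ.filter (fun x : V × Fin q => C x = i) : Finset (V × Fin q)) :
          Set (V × Fin q)) := by
      intro x hx y hy hxy
      rw [Finset.mem_coe, Finset.mem_filter] at hx hy
      by_contra hne
      exact C.valid (show (blow G q).Adj x y from ⟨hne, Or.inl hxy⟩) (hx.2.trans hy.2.symm)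
    rw [← Finset.card_image_of_injOn hinj]
    apply hI
    intro a ha b hb hab
    obtain ⟨x, hx, rfl⟩ := Finset.mem_image.mp ha
    obtain ⟨y, hy, rfl⟩ := Finset.mem_image.mp hb
    rw [Finset.mem_filter] at hx hy
    have hne : x ≠ y := by
      rintro rfl
      exact G.loopless.irrefl _ hab
    exact C.valid (show (blow G q).Adj x y from ⟨hne, Or.inr hab⟩) (hx.2.trans hy.2.symm)
  have h3 : ∑ i : Fin m, (Finset.univ.filter (fun x : V × Fin q => C x = i)).card
      ≤ ∑ _i : Fin m, α := Finset.sum_le_sum (fun i _ => h2 i)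
  rw [← h1] at h3
  simpa [Fintype.card_prod] using h3

/-- Small chromatic number of the graph itself is impossible too. -/
lemma nocol_of_indep {V : Type} [Fintype V] [DecidableEq V] (G : SimpleGraph V) (K α : ℕ)
    (hI : ∀ I : Finset V, (∀ x ∈ I, ∀ y ∈ I, ¬ G.Adj x y) → I.card ≤ α)
    (hbig : 2 * K * α < Fintype.card V) :
    ¬ ∃ κ : V → Fin K × Bool, ∀ v w, G.Adj v w → κ v ≠ κ w := by
  classical
  rintro ⟨κ, hκ⟩
  have h1 : Fintype.card V = ∑ i : Fin K × Bool,
      (Finset.univ.filter (fun x : V => κ x = i)).card := by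
    rw [← Finset.card_univ]
    exact Finset.card_eq_sum_card_fiberwise (fun x _ => Finset.mem_coe.mpr (Finset.mem_univ _))
  have h2 : ∀ i : Fin K × Bool, (Finset.univ.filter (fun x : V => κ x = i)).card ≤ α := by
    intro i
    apply hI
    intro x hx y hy hxy
    rw [Finset.mem_filter] at hx hy
    exact hκ x y hxy (hx.2.trans hy.2.symm)
  have h3 : ∑ i : Fin K × Bool, (Finset.univ.filter (fun x : V => κ x = i)).card
      ≤ ∑ _i : Fin K × Bool, α := Finset.sum_le_sum (fun i _ => h2 i)
  rw [← h1] at h3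
  simp only [Finset.sum_const, Finset.card_univ, Fintype.card_prod, Fintype.card_fin,
    Fintype.card_bool, smul_eq_mul] at h3
  have : 2 * K * α = K * 2 * α := by ring
  omega

/-- The product of the exponential-type graph with the blow-up is coloured by evaluation. -/
def evalCol {V : Type} {K s q : ℕ} (t : V → (Fin K × Bool) ⊕ Fin s) (x : V × Fin q) :
    ((Fin K × Bool) × Fin q) ⊕ Fin s :=
  match t x.1 with
  | Sum.inl a => Sum.inl (a, x.2)
  | Sum.inr b => Sum.inr b

lemma evalCol_ne {V : Type} {K s q : ℕ} [Fintype V] [DecidableEq V] (G : SimpleGraph V)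
    {t t' : V → (Fin K × Bool) ⊕ Fin s} {x y : V × Fin q}
    (ht : (EG G K s).Adj t t') (hx : (blow G q).Adj x y) : evalCol t x ≠ evalCol t' y := by
  obtain ⟨-, hcl⟩ := ht
  obtain ⟨hne, hadj⟩ := hx
  obtain ⟨v, i⟩ := x
  obtain ⟨w, j⟩ := y
  simp only at hadj
  intro h
  simp only [evalCol] at h
  rcases h1 : t v with a | b <;> rcases h2 : t' w with a' | b' <;> simp only [h1, h2] at h
  · have h3 := Sum.inl.inj h
    have ha : a = a' := congrArg Prod.fst h3
    have hij : i = j := congrArg Prod.snd h3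
    rcases hadj with hvw | hvw
    · apply hne
      rw [hvw, hij]
    · apply hcl
      exact Or.inl ⟨v, w, hvw, by rw [h1, h2, ha]⟩
  · cases h
  · cases h
  · have hb : b = b' := Sum.inr.inj h
    rcases hadj with hvw | hvw
    · apply hcl
      subst hvw
      exact Or.inr ⟨v, b, h1, by rw [h2, hb]⟩
    · apply hcl
      exact Or.inl ⟨v, w, hvw, by rw [h1, h2, hb]⟩

end Pool.Agent.H55.PR
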