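import Pool.Agent.H55.PR.Flag

set_option autoImplicit false
set_option linter.unusedSectionVars false

open Finset

namespace Pool.Agent.H55.PR

/-- Partial colourability. -/
def PCol {V : Type} (G : SimpleGraph V) (W : Finset V) (m : ℕ) : Prop :=
  ∃ c : V → ℕ, (∀ v ∈ W, c v < m) ∧ ∀ v ∈ W, ∀ w ∈ W, G.Adj v w → c v ≠ c w

/-- A finite graph that is not `(n-1)`-colourable has an induced subgraph of chromatic number
exactly `n`. -/
lemma exact_sub {V : Type} [Fintype V] [DecidableEq V] (G : SimpleGraph V) (n : ℕ) (hn : 0 < n)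
    (h : ¬ G.Colorable (n - 1)) :
    ∃ (a : ℕ) (f : Fin a → V), (G.comap f).chromaticNumber = (n : ℕ∞) := by
  classical
  have huniv : ¬ PCol G Finset.univ (n - 1) := by
    rintro ⟨c, hc1, hc2⟩
    apply h
    exact ⟨SimpleGraph.Coloring.mk (fun v => (⟨c v, hc1 v (Finset.mem_univ _)⟩ : Fin (n - 1)))
      (fun {v w} hvw heq => hc2 v (Finset.mem_univ _) w (Finset.mem_univ _) hvw
        (congrArg Fin.val heq))⟩
  obtain ⟨W, hW, hmin⟩ : ∃ W : Finset V, ¬ PCol G W (n - 1) ∧
      ∀ W' : Finset V, ¬ PCol G W' (n - 1) → W.card ≤ W'.card := by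
    have hex : ∃ m : ℕ, ∃ W : Finset V, ¬ PCol G W (n - 1) ∧ W.card = m :=
      ⟨_, Finset.univ, huniv, rfl⟩
    obtain ⟨W, hW, hWc⟩ := Nat.find_spec hex
    refine ⟨W, hW, ?_⟩
    intro W' hW'
    rw [hWc]
    exact Nat.find_min' hex ⟨W', hW', rfl⟩
  have hWne : W.Nonempty := by
    rw [Finset.nonempty_iff_ne_empty]
    rintro rfl
    exact hW ⟨fun _ => 0, by simp, by simp⟩
  obtain ⟨v0, hv0⟩ := hWne
  have herase : PCol G (W.erase v0) (n - 1) := by
    by_contra hcon
    have h1 := hmin _ hcon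
    have h2 := Finset.card_erase_lt_of_mem hv0
    omega
  have hPn : PCol G W n := by
    obtain ⟨c, hc1, hc2⟩ := herase
    refine ⟨Function.update c v0 (n - 1), ?_, ?_⟩
    · intro v hv
      by_cases hvv : v = v0
      · subst hvv; rw [Function.update_self]; omega
      · rw [Function.update_of_ne hvv]
        have := hc1 v (Finset.mem_erase.mpr ⟨hvv, hv⟩)
        omega
    · intro v hv w hw hvw
      by_cases hvv : v = v0
      · by_cases hww : w = v0
        · subst hvv; subst hww
          exact absurd hvw (G.loopless.irrefl _)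
        · subst hvv
          rw [Function.update_self, Function.update_of_ne hww]
          have := hc1 w (Finset.mem_erase.mpr ⟨hww, hw⟩)
          omega
      · by_cases hww : w = v0
        · subst hww
          rw [Function.update_self, Function.update_of_ne hvv]
          have := hc1 v (Finset.mem_erase.mpr ⟨hvv, hv⟩)
          omega
        · rw [Function.update_of_ne hvv, Function.update_of_ne hww]
          exact hc2 v (Finset.mem_erase.mpr ⟨hvv, hv⟩) w (Finset.mem_erase.mpr ⟨hww, hw⟩) hvw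
  let e := W.equivFin
  refine ⟨W.card, fun i => (e.symm i : V), ?_⟩
  have hcolorable : ∀ m : ℕ, (G.comap (fun i : Fin W.card => (e.symm i : V))).Colorable m ↔
      PCol G W m := by
    intro m
    constructor
    · rintro ⟨C⟩
      refine ⟨fun v => if hv : v ∈ W then (C (e ⟨v, hv⟩) : Fin m).val else 0, ?_, ?_⟩
      · intro v hv
        simp only [hv, dif_pos]
        exact (C (e ⟨v, hv⟩)).2
      · intro v hv w hw hvw
        simp only [hv, hw, dif_pos]
        intro heq
        refine C.valid (v := e ⟨v, hv⟩) (w := e ⟨w, hw⟩) ?_ (Fin.ext heq)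
        simp only [SimpleGraph.comap_adj, Equiv.symm_apply_apply]
        exact hvw
    · rintro ⟨c, hc1, hc2⟩
      exact ⟨SimpleGraph.Coloring.mk (fun i => (⟨c (e.symm i : V), hc1 _ (e.symm i).2⟩ : Fin m))
        (fun {i j} hij heq => hc2 _ (e.symm i).2 _ (e.symm j).2 hij (congrArg Fin.val heq))⟩
  apply le_antisymm
  · exact ((hcolorable n).mpr hPn).chromaticNumber_le
  · rw [SimpleGraph.le_chromaticNumber_iff_colorable]
    intro m hm
    by_contra hlt
    have hlt' : m ≤ n - 1 := by
      have : m < n := by exact_mod_cast not_le.mp hlt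
      omega
    exact hW ((hcolorable (n - 1)).mp (hm.mono hlt'))

/-- Combinatorial main theorem. -/
theorem pair_exists (K p s q n : ℕ) (hK : 0 < K) [Fact p.Prime] (hp : 4 * K < p) (hn : 0 < n)
    (hs1 : 2 * n < K * s) (hs2 : 18 * K * p ^ 10 ≤ s) (hq : 2 * n < p * q) :
    ∃ (a b : ℕ) (G : SimpleGraph (Fin a)) (H : SimpleGraph (Fin b)),
      G.chromaticNumber = (n : ℕ∞) ∧ H.chromaticNumber = (n : ℕ∞) ∧
      (SimpleGraph.fromRel
        (fun (x y : Fin a × Fin b) => G.Adj x.1 y.1 ∧ H.Adj x.2 y.2)).Colorable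
        (2 * K * q + s) := by
  classical
  have hppos : 0 < p := (Fact.out : p.Prime).pos
  have hz : NeZero p := ⟨hppos.ne'⟩
  have hcardV : Fintype.card (ZMod p × ZMod p × ZMod p) = p * (p * p) := by
    simp [Fintype.card_prod, ZMod.card]
  have hnocol : ¬ ∃ κ : (ZMod p × ZMod p × ZMod p) → Fin K × Bool,
      ∀ v w, (FG p).Adj v w → κ v ≠ κ w := by
    apply nocol_of_indep (FG p) K (2 * p ^ 2) (FG_indep p)
    rw [hcardV]
    calc 2 * K * (2 * p ^ 2) = (4 * K) * (p * p) := by ring
      _ < p * (p * p) := Nat.mul_lt_mul_of_pos_right hp (Nat.mul_pos hppos hppos)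
  have hE : ¬ (EG (FG p) K s).Colorable (n - 1) := by
    intro hcol
    have hlt : 4 * (n - 1) * (3 * p ^ 5) ^ 2 < s ^ 2 := by
      have hYpos : 0 < (3 * p ^ 5) ^ 2 := by positivity
      calc 4 * (n - 1) * (3 * p ^ 5) ^ 2 < 2 * (K * s) * (3 * p ^ 5) ^ 2 := by
            apply Nat.mul_lt_mul_of_pos_right _ hYpos
            omega
        _ = (18 * K * p ^ 10) * s := by ring
        _ ≤ s * s := Nat.mul_le_mul_right _ hs2
        _ = s ^ 2 := by ring
    have := eg_lower (FG p) K s (FG_tri p) hnocol hcol (3 * p ^ 5) (FG_prs p) hlt hK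
    omega
  have hH : ¬ (blow (FG p) q).Colorable (n - 1) := by
    intro hcol
    have h1 := blow_lower (FG p) q (n - 1) (2 * p ^ 2) (FG_indep p) hcol
    rw [hcardV] at h1
    have h2 : (p * p) * (p * q) ≤ (p * p) * (2 * (n - 1)) := by
      calc (p * p) * (p * q) = p * (p * p) * q := by ring
        _ ≤ (n - 1) * (2 * p ^ 2) := h1
        _ = (p * p) * (2 * (n - 1)) := by ring
    have h3 := Nat.le_of_mul_le_mul_left h2 (Nat.mul_pos hppos hppos)
    omega
  obtain ⟨a, f, hf⟩ := exact_sub (EG (FG p) K s) n hn hE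
  obtain ⟨b, g, hg⟩ := exact_sub (blow (FG p) q) n hn hH
  refine ⟨a, b, _, _, hf, hg, ?_⟩
  have hcard : Fintype.card (((Fin K × Bool) × Fin q) ⊕ Fin s) = 2 * K * q + s := by
    simp only [Fintype.card_sum, Fintype.card_prod, Fintype.card_fin, Fintype.card_bool]
    ring
  rw [← hcard]
  refine SimpleGraph.Coloring.colorable (α := ((Fin K × Bool) × Fin q) ⊕ Fin s)
    (SimpleGraph.Coloring.mk (fun z : Fin a × Fin b => evalCol (f z.1) (g z.2)) ?_)
  intro x y hxy
  rw [SimpleGraph.fromRel_adj] at hxy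
  rcases hxy.2 with ⟨h1, h2⟩ | ⟨h1, h2⟩
  · exact evalCol_ne (FG p) h1 h2
  · exact (evalCol_ne (FG p) h1 h2).symm

end Pool.Agent.H55.PR
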