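import Pool.Agent.H55.PR.Main

set_option autoImplicit false

namespace Pool.Agent.H55.PR

/-- The pair for one size, natural number form. -/
lemma pair_nat (K n : ℕ) (hK : 0 < K) (hn : 9 * 8 ^ 10 * K ^ 22 ≤ n) :
    ∃ (a b : ℕ) (G : SimpleGraph (Fin a)) (H : SimpleGraph (Fin b)),
      G.chromaticNumber = (n : ℕ∞) ∧ H.chromaticNumber = (n : ℕ∞) ∧
      ((SimpleGraph.fromRel
        (fun (x y : Fin a × Fin b) => G.Adj x.1 y.1 ∧ H.Adj x.2 y.2)).chromaticNumber.toNat : ℝ)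
        ≤ 6 * n / K := by
  have hK4 : 4 * K ^ 2 ≠ 0 := by positivity
  obtain ⟨p, hpp, hp1, hp2⟩ := Nat.exists_prime_lt_and_le_two_mul (4 * K ^ 2) hK4
  have hf : Fact p.Prime := ⟨hpp⟩
  have hppos : 0 < p := hpp.pos
  have hn0 : 0 < n := lt_of_lt_of_le (by positivity) hn
  have hp4 : 4 * K < p := by nlinarith
  have hs1 : 2 * n < K * (2 * n / K + 1) := Nat.lt_mul_div_succ _ hK
  have hq : 2 * n < p * (2 * n / p + 1) := Nat.lt_mul_div_succ _ hppos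
  have hs2 : 18 * K * p ^ 10 ≤ 2 * n / K + 1 := by
    have h1 : 18 * K * p ^ 10 ≤ 2 * n / K := by
      rw [Nat.le_div_iff_mul_le hK]
      have hp3 : p ^ 10 ≤ (8 * K ^ 2) ^ 10 := Nat.pow_le_pow_left (by omega) 10
      calc 18 * K * p ^ 10 * K ≤ 18 * K * (8 * K ^ 2) ^ 10 * K := by gcongr
        _ = 2 * (9 * 8 ^ 10 * K ^ 22) := by ring
        _ ≤ 2 * n := Nat.mul_le_mul_left _ hn
    omega
  obtain ⟨a, b, G, H, hG, hH, hcol⟩ :=
    pair_exists K p (2 * n / K + 1) (2 * n / p + 1) n hK hp4 hn0 hs1 hs2 hq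
  refine ⟨a, b, G, H, hG, hH, ?_⟩
  have h1 : (SimpleGraph.fromRel
      (fun (x y : Fin a × Fin b) => G.Adj x.1 y.1 ∧ H.Adj x.2 y.2)).chromaticNumber.toNat ≤
      2 * K * (2 * n / p + 1) + (2 * n / K + 1) := by
    have := hcol.chromaticNumber_le
    exact ENat.toNat_le_of_le_natCast this
  have h2 : (((SimpleGraph.fromRel
      (fun (x y : Fin a × Fin b) => G.Adj x.1 y.1 ∧ H.Adj x.2 y.2)).chromaticNumber.toNat : ℕ) : ℝ) ≤
      ((2 * K * (2 * n / p + 1) + (2 * n / K + 1) : ℕ) : ℝ) := by exact_mod_cast h1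
  refine h2.trans ?_
  have hKR : (0 : ℝ) < K := by exact_mod_cast hK
  have hpR : (0 : ℝ) < p := by exact_mod_cast hppos
  have e1 : ((2 * n / p : ℕ) : ℝ) ≤ 2 * n / p := by
    have := @Nat.cast_div_le ℝ _ _ _ (2 * n) p
    simpa using this
  have e2 : ((2 * n / K : ℕ) : ℝ) ≤ 2 * n / K := by
    have := @Nat.cast_div_le ℝ _ _ _ (2 * n) K
    simpa using this
  have hnR : (0 : ℝ) ≤ n := Nat.cast_nonneg n
  have e3 : 2 * (K : ℝ) * (2 * n / p) ≤ n / K := by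
    rw [← mul_div_assoc, div_le_div_iff₀ hpR hKR]
    have hp2' : 4 * (K : ℝ) ^ 2 ≤ p := by exact_mod_cast hp1.le
    nlinarith
  have hK1 : (1 : ℝ) ≤ K := by exact_mod_cast hK
  have e4 : 2 * (K : ℝ) + 1 ≤ 3 * n / K := by
    rw [le_div_iff₀ hKR]
    have hKn : K ^ 2 ≤ n := by
      have h22 : K ^ 2 ≤ K ^ 22 := Nat.pow_le_pow_right hK (by norm_num)
      have : K ^ 22 ≤ 9 * 8 ^ 10 * K ^ 22 := Nat.le_mul_of_pos_left _ (by norm_num)
      omega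
    have hKn' : (K : ℝ) ^ 2 ≤ n := by exact_mod_cast hKn
    nlinarith
  push_cast
  have e6 : 6 * (n : ℝ) / K = n / K + 2 * n / K + 3 * n / K := by ring
  rw [e6]
  nlinarith [e1, e2, e3, e4, mul_le_mul_of_nonneg_left e1 (by positivity : (0 : ℝ) ≤ 2 * K)]

/-- The complete graph gives the trivial bound. -/
lemma trivial_pair (n : ℕ) :
    ∃ (a b : ℕ) (G : SimpleGraph (Fin a)) (H : SimpleGraph (Fin b)),
      G.chromaticNumber = (n : ℕ∞) ∧ H.chromaticNumber = (n : ℕ∞) ∧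
      (SimpleGraph.fromRel
        (fun (x y : Fin a × Fin b) => G.Adj x.1 y.1 ∧ H.Adj x.2 y.2)).chromaticNumber.toNat
        ≤ n := by
  refine ⟨n, n, ⊤, ⊤, ?_, ?_, ?_⟩
  · rw [SimpleGraph.chromaticNumber_top, Fintype.card_fin]
  · rw [SimpleGraph.chromaticNumber_top, Fintype.card_fin]
  · have hcol : (SimpleGraph.fromRel (fun (x y : Fin n × Fin n) =>
        (⊤ : SimpleGraph (Fin n)).Adj x.1 y.1 ∧ (⊤ : SimpleGraph (Fin n)).Adj x.2 y.2)).Colorable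
        n := by
      refine ⟨SimpleGraph.Coloring.mk (fun z : Fin n × Fin n => z.1) ?_⟩
      intro x y hxy
      rw [SimpleGraph.fromRel_adj] at hxy
      rcases hxy.2 with ⟨h1, -⟩ | ⟨h1, -⟩
      · exact h1.ne
      · exact h1.ne.symm
    exact ENat.toNat_le_of_le_natCast hcol.chromaticNumber_le

/-- Power saving for the Poljak-Roedl function. -/
theorem power_saving : ∃ C : ℝ, ∀ n : ℕ, 1 ≤ n →
    ∃ (a b : ℕ) (G : SimpleGraph (Fin a)) (H : SimpleGraph (Fin b)),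
      G.chromaticNumber = (n : ℕ∞) ∧ H.chromaticNumber = (n : ℕ∞) ∧
      ((SimpleGraph.fromRel
        (fun (x y : Fin a × Fin b) => G.Adj x.1 y.1 ∧ H.Adj x.2 y.2)).chromaticNumber.toNat : ℝ)
        ≤ C * (n : ℝ) ^ (21 / 22 : ℝ) := by
  set B : ℕ := 9 * 8 ^ 10 with hB
  have hBpos : (0 : ℝ) < B := by rw [hB]; positivity
  refine ⟨12 * B, ?_⟩
  intro n hn
  have hnR : (1 : ℝ) ≤ n := by exact_mod_cast hn
  have hn0 : (0 : ℝ) < n := by linarith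
  set r : ℝ := (n / B : ℝ) ^ (1 / 22 : ℝ) with hr
  have hrpos : 0 < r := by rw [hr]; positivity
  have hr22 : r ^ 22 = n / B := by
    rw [hr, ← Real.rpow_natCast, ← Real.rpow_mul (by positivity)]
    norm_num
  -- n / r in terms of the power
  have hkey : (n : ℝ) / r ≤ B * (n : ℝ) ^ (21 / 22 : ℝ) := by
    have h1 : r = (n : ℝ) ^ (1 / 22 : ℝ) / (B : ℝ) ^ (1 / 22 : ℝ) := by
      rw [hr, Real.div_rpow hn0.le hBpos.le]
    have h2 : (n : ℝ) ^ (21 / 22 : ℝ) * (n : ℝ) ^ (1 / 22 : ℝ) = n := by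
      rw [← Real.rpow_add hn0]; norm_num
    have h3 : (B : ℝ) ^ (1 / 22 : ℝ) ≤ B := by
      have hB1 : (1 : ℝ) ≤ B := by rw [hB]; norm_num
      calc (B : ℝ) ^ (1 / 22 : ℝ) ≤ (B : ℝ) ^ (1 : ℝ) :=
            Real.rpow_le_rpow_of_exponent_le hB1 (by norm_num)
        _ = B := Real.rpow_one _
    rw [h1, div_div_eq_mul_div, div_le_iff₀ (by positivity)]
    calc (n : ℝ) * (B : ℝ) ^ (1 / 22 : ℝ) ≤ n * B := by gcongr
      _ = B * ((n : ℝ) ^ (21 / 22 : ℝ) * (n : ℝ) ^ (1 / 22 : ℝ)) := by rw [h2]; ring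
      _ = B * (n : ℝ) ^ (21 / 22 : ℝ) * (n : ℝ) ^ (1 / 22 : ℝ) := by ring
  rcases lt_or_ge r 1 with hr1 | hr1
  · obtain ⟨a, b, G, H, hG, hH, hcol⟩ := trivial_pair n
    refine ⟨a, b, G, H, hG, hH, ?_⟩
    have h1 : ((SimpleGraph.fromRel
        (fun (x y : Fin a × Fin b) => G.Adj x.1 y.1 ∧ H.Adj x.2 y.2)).chromaticNumber.toNat : ℝ)
        ≤ n := by exact_mod_cast hcol
    have h2 : (n : ℝ) ≤ n / r := by
      rw [le_div_iff₀ hrpos]; nlinarith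
    have h3 : 0 ≤ (B : ℝ) * (n : ℝ) ^ (21 / 22 : ℝ) := by positivity
    calc _ ≤ (n : ℝ) := h1
      _ ≤ n / r := h2
      _ ≤ B * (n : ℝ) ^ (21 / 22 : ℝ) := hkey
      _ ≤ 12 * B * (n : ℝ) ^ (21 / 22 : ℝ) := by nlinarith
  · set K : ℕ := ⌊r⌋₊ with hKdef
    have hK : 0 < K := Nat.floor_pos.mpr hr1
    have hKR : (0 : ℝ) < K := by exact_mod_cast hK
    have hKr : (K : ℝ) ≤ r := Nat.floor_le hrpos.le
    have hrK : r < K + 1 := Nat.lt_floor_add_one r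
    have hK1 : (1 : ℝ) ≤ K := by exact_mod_cast hK
    have hcond : 9 * 8 ^ 10 * K ^ 22 ≤ n := by
      have h1 : (K : ℝ) ^ 22 ≤ n / B := by
        rw [← hr22]
        exact pow_le_pow_left₀ hKR.le hKr 22
      rw [le_div_iff₀ hBpos] at h1
      have h2 : (B : ℝ) * (K : ℝ) ^ 22 ≤ n := by linarith
      rw [← hB]
      exact_mod_cast h2
    obtain ⟨a, b, G, H, hG, hH, hcol⟩ := pair_nat K n hK hcond
    refine ⟨a, b, G, H, hG, hH, hcol.trans ?_⟩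
    have h3 : 6 * (n : ℝ) / K ≤ 12 * (n / r) := by
      rw [← mul_div_assoc, div_le_div_iff₀ hKR hrpos]
      nlinarith
    calc 6 * (n : ℝ) / K ≤ 12 * (n / r) := h3
      _ ≤ 12 * (B * (n : ℝ) ^ (21 / 22 : ℝ)) := by gcongr
      _ = 12 * B * (n : ℝ) ^ (21 / 22 : ℝ) := by ring

end Pool.Agent.H55.PR
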