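import Pool.Agent.H55.PR.Core

set_option autoImplicit false
set_option linter.unusedSectionVars false

open Finset

namespace Pool.Agent.H55.PR

variable {V : Type} [Fintype V] [DecidableEq V]

/-- Ordered pairs of equal or adjacent vertices. -/
noncomputable def prs (G : SimpleGraph V) : Finset (V × V) := by
  classical
  exact Finset.univ.filter (fun z : V × V => z.1 = z.2 ∨ G.Adj z.1 z.2)

lemma mem_prs (G : SimpleGraph V) (z : V × V) : z ∈ prs G ↔ (z.1 = z.2 ∨ G.Adj z.1 z.2) := by
  classical
  simp [prs]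

/-- Records at a vertex `u`: a set `S` of single colours, with an injective assignment of fresh
colour classes, each pinned at `u`. -/
def Rec {M : ℕ} (G : SimpleGraph V) (K s k : ℕ) (W : Finset V) (κ : V → Fin K × Bool)
    (Φ : (V → (Fin K × Bool) ⊕ Fin s) → Fin M) (D : Finset (Fin M)) (u : V)
    (S : Finset (Fin s)) (τ : Fin s → Fin M) : Prop :=
  (∀ b ∈ S, τ b ∉ D ∧ Pin G K s k W κ Φ (τ b) u b) ∧ Set.InjOn τ S

/-- The location lemma. -/
lemma locate {M : ℕ} (G : SimpleGraph V) (K s k : ℕ) (W : Finset V) (κ : V → Fin K × Bool)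
    (Φ : (V → (Fin K × Bool) ⊕ Fin s) → Fin M) (hΦ : ∀ t t', (EG G K s).Adj t t' → Φ t ≠ Φ t')
    (D : Finset (Fin M))
    (hκ : ∀ v ∈ W, (κ v).1.val < k) (hprop : ∀ v ∈ W, ∀ w ∈ W, G.Adj v w → κ v ≠ κ w)
    (hD : ∀ t, Adm K s k W κ t → Φ t ∉ D)
    (hW : ∃ v, v ∉ W) (B : ℕ) (hB : (prs G).card ≤ B) (hs : 4 * M * B ^ 2 < s ^ 2) :
    ∃ u, u ∉ W ∧ ∃ (S : Finset (Fin s)) (τ : Fin s → Fin M),
      Rec G K s k W κ Φ D u S τ ∧ s < 2 * S.card := by
  classical
  have hspos : 0 < s := by
    rcases Nat.eq_zero_or_pos s with h | h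
    · subst h; simp at hs
    · exact h
  have hne0 : Nonempty (Fin s) := ⟨⟨0, hspos⟩⟩
  -- maximal records
  have hM : Nonempty (Fin M) := ⟨Φ (fun _ => Sum.inr ⟨0, hspos⟩)⟩
  obtain ⟨i00⟩ := hM
  have hmax : ∀ u : V, ∃ (S : Finset (Fin s)) (τ : Fin s → Fin M), Rec G K s k W κ Φ D u S τ ∧
      ∀ (S' : Finset (Fin s)) (τ' : Fin s → Fin M), Rec G K s k W κ Φ D u S' τ' →
        S'.card ≤ S.card := by
    intro u
    have hbase : ∃ m : ℕ, ∃ (S : Finset (Fin s)) (τ : Fin s → Fin M),
        Rec G K s k W κ Φ D u S τ ∧ S.card = m :=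
      ⟨0, ∅, fun _ => i00, ⟨by simp, by simp⟩, rfl⟩
    have hbd : ∀ m : ℕ, (∃ (S : Finset (Fin s)) (τ : Fin s → Fin M),
        Rec G K s k W κ Φ D u S τ ∧ S.card = m) → m ≤ s := by
      rintro m ⟨S, τ, -, hS⟩
      rw [← hS]
      simpa using Finset.card_le_univ S
    obtain ⟨m, ⟨S, τ, hR, hS⟩, hm⟩ : ∃ m : ℕ, (∃ (S : Finset (Fin s)) (τ : Fin s → Fin M),
        Rec G K s k W κ Φ D u S τ ∧ S.card = m) ∧ ∀ m', (∃ (S : Finset (Fin s))
          (τ : Fin s → Fin M), Rec G K s k W κ Φ D u S τ ∧ S.card = m') → m' ≤ m := by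
      have := Nat.findGreatest_spec (P := fun m => ∃ (S : Finset (Fin s)) (τ : Fin s → Fin M),
        Rec G K s k W κ Φ D u S τ ∧ S.card = m) (n := s) (Nat.zero_le s)
        ⟨∅, fun _ => i00, ⟨by simp, by simp⟩, rfl⟩
      refine ⟨_, this, ?_⟩
      intro m' hm'
      exact Nat.le_findGreatest (hbd m' hm') hm'
    refine ⟨S, τ, hR, ?_⟩
    intro S' τ' hR'
    rw [hS]
    exact hm _ ⟨S', τ', hR', rfl⟩
  choose S τ hRec hMax using hmax
  by_contra hcon
  push Not at hcon
  have hsmall : ∀ u, u ∉ W → 2 * (S u).card ≤ s := by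
    intro u hu
    exact hcon u hu (S u) (τ u) (hRec u)
  -- the lists
  set L : V → Finset (Fin s) := fun u => if u ∈ W then Finset.univ else (S u)ᶜ with hLdef
  have hL : ∀ v, s ≤ 2 * (L v).card := by
    intro v
    by_cases hv : v ∈ W
    · simp [hLdef, hv]; omega
    · have := hsmall v hv
      simp only [hLdef, hv, if_false, Finset.card_compl, Fintype.card_fin]
      omega
  have hLne : ∀ v, (L v).Nonempty := by
    intro v
    rw [← Finset.card_pos]
    have := hL v
    omega
  set Q := Fintype.piFinset L with hQ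
  have hQne : Q.Nonempty := by
    rw [hQ]
    exact Fintype.piFinset_nonempty.mpr hLne
  -- the popular colour
  obtain ⟨i, -, hi⟩ := pigeon Q (Finset.univ : Finset (Fin M))
    (fun i g => Φ (lab W κ g) = i) (fun g _ => ⟨_, Finset.mem_univ _, rfl⟩) hQne
  rw [Finset.card_univ, Fintype.card_fin] at hi
  set A := Q.filter (fun g => Φ (lab W κ g) = i) with hA
  have hQpos : 0 < Q.card := Finset.card_pos.mpr hQne
  have hAne : A.Nonempty := by
    rw [← Finset.card_pos]
    by_contra h
    have : A.card = 0 := by omega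
    rw [this] at hi
    omega
  obtain ⟨f, hf⟩ := hAne
  have hfi : Φ (lab W κ f) = i := (Finset.mem_filter.mp hf).2
  obtain ⟨v0, hv0⟩ := hW
  obtain ⟨⟨u, w⟩, -, hu⟩ := pigeon A (prs G)
    (fun z g => z.1 ∉ W ∧ g z.1 = f z.2) (by
      intro g hg
      have hgi : Φ (lab W κ g) = i := (Finset.mem_filter.mp hg).2
      by_cases heq : lab (K := K) W κ g = lab W κ f
      · refine ⟨(v0, v0), (mem_prs G _).mpr (Or.inl rfl), hv0, ?_⟩
        have := congrFun heq v0
        simp only [lab, hv0, if_false] at this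
        exact Sum.inr.inj this
      · by_cases hcl : Clash G K s (lab W κ g) (lab W κ f)
        · obtain ⟨v, w, hv, hw, hvw, h⟩ := clash_lab hκ hprop (lab_adm k W κ f) hcl
          refine ⟨(v, w), (mem_prs G _).mpr hvw, hv, ?_⟩
          simp only [lab, hw, if_false] at h
          exact (Sum.inr.inj h).symm
        · exact absurd (hgi.trans hfi.symm) (hΦ _ _ ⟨heq, hcl⟩)) ⟨f, hf⟩
  simp only at hu
  set F := A.filter (fun g => u ∉ W ∧ g u = f w) with hF
  set b := f w with hb
  have hApos : 0 < A.card := Finset.card_pos.mpr ⟨f, hf⟩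
  have hFne : F.Nonempty := by
    rw [← Finset.card_pos]
    by_contra h
    have : F.card = 0 := by omega
    rw [this] at hu
    omega
  obtain ⟨g0, hg0⟩ := hFne
  have huW : u ∉ W := (Finset.mem_filter.mp hg0).2.1
  have hg0u : g0 u = b := (Finset.mem_filter.mp hg0).2.2
  have hFQ : F ⊆ Q := fun g hg => (Finset.mem_filter.mp (Finset.mem_filter.mp hg).1).1
  have hFi : ∀ g ∈ F, Φ (lab W κ g) = i := fun g hg =>
    (Finset.mem_filter.mp (Finset.mem_filter.mp hg).1).2
  have hFu : ∀ g ∈ F, g u = b := fun g hg => (Finset.mem_filter.mp hg).2.2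
  have hbL : b ∈ L u := by
    have := hFQ hg0
    rw [hQ, Fintype.mem_piFinset] at this
    rw [← hg0u]; exact this u
  have hbS : b ∉ S u := by
    simpa [hLdef, huW] using hbL
  -- the contradiction engine
  have engine : ∀ (c : V × V → Fin s), ¬ ∀ g ∈ F, ∃ z ∈ prs G,
      z.1 ≠ u ∧ g z.1 = c z := by
    intro c hc
    have h1 := upper L hL F hFQ u b hFu (prs G) c hc
    rw [← hQ] at h1
    have h1' : F.card * s ^ 2 ≤ 4 * B * Q.card :=
      h1.trans (Nat.mul_le_mul_right _ (Nat.mul_le_mul_left _ hB))
    have h2 : Q.card ≤ M * (B * F.card) :=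
      hi.trans (Nat.mul_le_mul_left M (hu.trans (Nat.mul_le_mul_right _ hB)))
    have h3 : Q.card * s ^ 2 ≤ M * B * (4 * B * Q.card) := by
      calc Q.card * s ^ 2 ≤ (M * (B * F.card)) * s ^ 2 := Nat.mul_le_mul_right _ h2
        _ = M * B * (F.card * s ^ 2) := by ring
        _ ≤ M * B * (4 * B * Q.card) := Nat.mul_le_mul_left _ h1'
    have h4 : Q.card * s ^ 2 ≤ Q.card * (4 * M * B ^ 2) := by
      calc Q.card * s ^ 2 ≤ M * B * (4 * B * Q.card) := h3
        _ = Q.card * (4 * M * B ^ 2) := by ring
    have h5 := Nat.le_of_mul_le_mul_left h4 hQpos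
    omega
  -- the class `i` is pinned at `u` with value `b`
  have hpin : Pin G K s k W κ Φ i u b := by
    intro t ht hti
    by_contra hno
    push Not at hno
    apply engine (fun z => match t z.2 with
      | Sum.inl _ => b
      | Sum.inr x => x)
    intro g hg
    have hgi := hFi g hg
    by_cases heq : lab (K := K) W κ g = t
    · exfalso
      apply hno u huW (Or.inl rfl)
      rw [← heq]
      simp [lab, huW, hFu g hg]
    · by_cases hcl : Clash G K s (lab W κ g) t
      · obtain ⟨v, w', hv, hw', hvw, h⟩ := clash_lab hκ hprop ht hcl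
        refine ⟨(v, w'), (mem_prs G _).mpr hvw, ?_, ?_⟩
        · rintro rfl
          apply hno w' hw'
          · rcases hvw with h' | h'
            · exact Or.inl h'.symm
            · exact Or.inr h'
          · rw [h, hFu g hg]
        · simp only [h]
      · exact absurd (hgi.trans hti.symm) (hΦ _ _ ⟨heq, hcl⟩)
  -- the class is new at `u`
  have hnew : ∀ b' ∈ S u, τ u b' ≠ i := by
    intro b' hb' hi'
    have hP := ((hRec u).1 b' hb').2
    rw [hi'] at hP
    apply engine (fun _ => b')
    intro g hg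
    obtain ⟨w', hw', -, h⟩ := hP _ (lab_adm k W κ g) (hFi g hg)
    simp only [lab, hw', if_false] at h
    have h' : g w' = b' := Sum.inr.inj h
    refine ⟨(w', w'), (mem_prs G _).mpr (Or.inl rfl), ?_, h'⟩
    rintro rfl
    rw [hFu g hg] at h'
    rw [← h'] at hb'
    exact hbS hb'
  -- enlarge the record
  have hbig : Rec G K s k W κ Φ D u (insert b (S u)) (Function.update (τ u) b i) := by
    constructor
    · intro b' hb'
      by_cases hbb : b' = b
      · subst hbb
        rw [Function.update_self]
        refine ⟨?_, hpin⟩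
        rw [← hFi g0 hg0]
        exact hD _ (lab_adm k W κ g0)
      · rw [Function.update_of_ne hbb]
        rcases Finset.mem_insert.mp hb' with h | h
        · exact absurd h hbb
        · exact (hRec u).1 b' h
    · intro x hx y hy hxy
      rw [Finset.mem_coe, Finset.mem_insert] at hx hy
      by_cases hxb : x = b
      · by_cases hyb : y = b
        · rw [hxb, hyb]
        · exfalso
          have hyS : y ∈ S u := hy.resolve_left hyb
          rw [hxb, Function.update_self, Function.update_of_ne hyb] at hxy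
          exact hnew y hyS hxy.symm
      · have hxS : x ∈ S u := hx.resolve_left hxb
        by_cases hyb : y = b
        · exfalso
          rw [hyb, Function.update_self, Function.update_of_ne hxb] at hxy
          exact hnew x hxS hxy
        · have hyS : y ∈ S u := hy.resolve_left hyb
          rw [Function.update_of_ne hxb, Function.update_of_ne hyb] at hxy
          exact (hRec u).2 hxS hyS hxy
  have := hMax u _ _ hbig
  rw [Finset.card_insert_of_notMem hbS] at this
  omega

/-- The staged construction. -/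
lemma stages {M : ℕ} (G : SimpleGraph V) (K s : ℕ)
    (htri : ∀ a b c, G.Adj a b → G.Adj a c → ¬ G.Adj b c)
    (hnocol : ¬ ∃ κ : V → Fin K × Bool, ∀ v w, G.Adj v w → κ v ≠ κ w)
    (Φ : (V → (Fin K × Bool) ⊕ Fin s) → Fin M) (hΦ : ∀ t t', (EG G K s).Adj t t' → Φ t ≠ Φ t')
    (B : ℕ) (hB : (prs G).card ≤ B) (hs : 4 * M * B ^ 2 < s ^ 2) (hK : 0 < K) :
    ∀ k, k ≤ K → ∃ (W : Finset V) (κ : V → Fin K × Bool) (D : Finset (Fin M)),
      (∀ v ∈ W, (κ v).1.val < k) ∧ (∀ v ∈ W, ∀ w ∈ W, G.Adj v w → κ v ≠ κ w) ∧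
      (∀ t, Adm K s k W κ t → Φ t ∉ D) ∧ k * s ≤ 2 * D.card := by
  classical
  intro k
  induction k with
  | zero =>
    intro _
    exact ⟨∅, fun _ => (⟨0, hK⟩, false), ∅, by simp, by simp, by simp, by simp⟩
  | succ k ih =>
    intro hk
    obtain ⟨W, κ, D, hκ, hprop, hD, hcard⟩ := ih (by omega)
    have hW : ∃ v, v ∉ W := by
      by_contra hcon
      push Not at hcon
      exact hnocol ⟨κ, fun v w hvw => hprop v (hcon v) w (hcon w) hvw⟩
    obtain ⟨u, huW, S, τ, ⟨hR1, hR2⟩, hS⟩ := locate G K s k W κ Φ hΦ D hκ hprop hD hW B hB hs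
    set Bs : Finset V := Finset.univ.filter (fun w => w ∉ W ∧ (w = u ∨ G.Adj u w)) with hB
    set κ' : V → Fin K × Bool := fun v =>
      if v ∈ W then κ v else if v = u then (⟨k, hk⟩, false) else (⟨k, hk⟩, true) with hκ'
    have hBW : ∀ v ∈ W ∪ Bs, v ∉ W → v ∈ Bs := by
      intro v hv hvW
      rcases Finset.mem_union.mp hv with h | h
      · exact absurd h hvW
      · exact h
    have hκ'in : ∀ v, v ∈ W → κ' v = κ v := by
      intro v hv; simp [hκ', hv]
    have hκ'out : ∀ v, v ∉ W → (κ' v).1.val = k := by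
      intro v hv
      by_cases hvu : v = u
      · simp [hκ', hvu, huW]
      · simp [hκ', hv, hvu]
    have hsubAdm : ∀ t, Adm K s (k + 1) (W ∪ Bs) κ' t → Adm K s k W κ t := by
      intro t ht
      constructor
      · intro v hv
        rw [ht.1 v (Finset.mem_union_left _ hv), hκ'in v hv]
      · intro v hv a ha
        by_cases hvB : v ∈ W ∪ Bs
        · have := ht.1 v hvB
          rw [ha] at this
          have h2 := Sum.inl.inj this
          rw [h2, hκ'out v hv]
        · have := ht.2 v hvB a ha
          omega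
    refine ⟨W ∪ Bs, κ', D ∪ S.image τ, ?_, ?_, ?_, ?_⟩
    · intro v hv
      by_cases hvW : v ∈ W
      · rw [hκ'in v hvW]
        have := hκ v hvW
        omega
      · rw [hκ'out v hvW]
        omega
    · intro v hv w hw hvw
      by_cases hvW : v ∈ W
      · by_cases hwW : w ∈ W
        · rw [hκ'in v hvW, hκ'in w hwW]
          exact hprop v hvW w hwW hvw
        · intro h
          have h1 := hκ v hvW
          have h2 := hκ'out w hwW
          rw [← h, hκ'in v hvW] at h2
          omega
      · by_cases hwW : w ∈ W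
        · intro h
          have h1 := hκ w hwW
          have h2 := hκ'out v hvW
          rw [h, hκ'in w hwW] at h2
          omega
        · have hvB := (Finset.mem_filter.mp (hBW v hv hvW)).2.2
          have hwB := (Finset.mem_filter.mp (hBW w hw hwW)).2.2
          by_cases hvu : v = u
          · have hwu : w ≠ u := by
              rintro rfl
              exact G.loopless.irrefl _ (hvu ▸ hvw)
            simp only [hκ', if_false, hvu, if_true, hwW, hwu, huW]
            intro h
            have := congrArg Prod.snd h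
            simp at this
          · by_cases hwu : w = u
            · simp only [hκ', hvW, if_false, hvu, hwu, if_true, huW]
              intro h
              have := congrArg Prod.snd h
              simp at this
            · exfalso
              have h1 := hvB.resolve_left hvu
              have h2 := hwB.resolve_left hwu
              exact htri u v w h1 h2 hvw
    · intro t ht hmem
      have htk := hsubAdm t ht
      rcases Finset.mem_union.mp hmem with h | h
      · exact hD t htk h
      · obtain ⟨b, hb, hbt⟩ := Finset.mem_image.mp h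
        obtain ⟨w, hwW, hw, htw⟩ := (hR1 b hb).2 t htk hbt.symm
        have hwB : w ∈ W ∪ Bs := by
          apply Finset.mem_union_right
          exact Finset.mem_filter.mpr ⟨Finset.mem_univ _, hwW, hw⟩
        have := ht.1 w hwB
        rw [htw] at this
        cases this
    · have hdisj : Disjoint D (S.image τ) := by
        rw [Finset.disjoint_right]
        intro x hx
        obtain ⟨b, hb, rfl⟩ := Finset.mem_image.mp hx
        exact (hR1 b hb).1
      rw [Finset.card_union_of_disjoint hdisj, Finset.card_image_of_injOn hR2]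
      nlinarith

/-- If the exponential-type graph of a triangle-free graph is `M`-colourable then `K s ≤ 2 M`. -/
theorem eg_lower {M : ℕ} (G : SimpleGraph V) (K s : ℕ)
    (htri : ∀ a b c, G.Adj a b → G.Adj a c → ¬ G.Adj b c)
    (hnocol : ¬ ∃ κ : V → Fin K × Bool, ∀ v w, G.Adj v w → κ v ≠ κ w)
    (hcol : (EG G K s).Colorable M)
    (B : ℕ) (hB : (prs G).card ≤ B) (hs : 4 * M * B ^ 2 < s ^ 2) (hK : 0 < K) : K * s ≤ 2 * M := by
  obtain ⟨C⟩ := hcol
  obtain ⟨W, κ, D, -, -, -, h⟩ := stages G K s htri hnocol (fun t => C t)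
    (fun t t' h => C.valid h) B hB hs hK K le_rfl
  have := Finset.card_le_univ D
  rw [Fintype.card_fin] at this
  omega

end Pool.Agent.H55.PR
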